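import Pool.Agent.Lib.helper10.At2

namespace Pool.Agent.Results.MP_f2fc00_lc.NPHard

open Pool.Agent.Cx hiding sg
open Pool.Agent.Cx.Oc Pool.Agent.At Finset MvPolynomial

abbrev P := MvPolynomial Id ℤ

noncomputable def xi (v : Id) : P := if v.1 = 2 ∨ v.1 = 4 then -X v else X v
noncomputable def sm (S : List (Id →₀ ℕ)) : P := (S.map (monomial · 1)).sum
noncomputable def PH : P := ∏ j ∈ range 6 ×ˢ range 6, sm [sg (3, (0, 0), j.1), sg (4, (0, 0), j.2)]
noncomputable def cs (φ : F) (i : Ix) : List P := (ps φ i).map fun x => X (2, x)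
noncomputable def AA (φ : F) (i : Ix) : P :=
  if gad φ i then ((cs φ i).map (X (0, i) + ·)).prod * (X (0, i) - X (1, i)) * (X (1, i) + X (2, ng i)) *
    X (1, i) ^ 2 * X (2, i) ^ 2
  else X (0, i) ^ (4 - (cs φ i).length) * ((cs φ i).map (X (0, i) + ·)).prod * X (1, i) ^ 3 * X (2, i) ^ 2
noncomputable def lin (φ : F) (i : Ix) : P := (cs φ i).sum - if gad φ i then X (2, ng i) else 0
noncomputable def aa : Id →₀ ℕ := ∑ k ∈ range 6, (3 • sg (3, (0, 0), k) + 3 • sg (4, (0, 0), k))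

variable {φ : F}

lemma sm_ok (S : List (Id →₀ ℕ)) : Pos (sm S) ∧ ∀ m, coeff m (sm S) ≠ 0 ↔ m ∈ S := by
  classical
  induction S with
  | nil => simp [sm, Pos]
  | cons a S ih =>
    have e : ∀ m, coeff m (sm (a :: S)) = (if a = m then 1 else 0) + coeff m (sm S) := fun m => by
      simp [sm, coeff_monomial]
    refine ⟨fun m => ?_, fun m => ?_⟩ <;> rw [e] <;> have := ih.1 m <;> have := ih.2 m <;> split_ifs <;>
      simp_all [eq_comm] <;> omega

lemma fr {t : ℕ} {i j : Ix} (h : t < 2) (n : t = 0 ∨ t = 1 → i ≠ j) : (∀ u ∈ cs φ j, u ∈ supported ℤ {(t, i)}ᶜ) ∧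
    (∀ x, (X (2, x) : P) ∈ supported ℤ {(t, i)}ᶜ) ∧ ∀ s, (X (s, j) : P) ∈ supported ℤ {(t, i)}ᶜ := by
  have a : ∀ x, (X (2, x) : P) ∈ supported ℤ {(t, i)}ᶜ := fun x => X_mem_supported.2 (by simp; omega)
  refine ⟨fun u e => ?_, a, fun s => X_mem_supported.2 (by simpa using fun _ => (n (by omega)).symm)⟩
  obtain ⟨x, -, rfl⟩ := List.mem_map.1 e
  exact a x

lemma fr2 {t : ℕ} {i j : Ix} (h : t < 2) (n : i ≠ j) : AA φ j ∈ supported ℤ {(t, i)}ᶜ ∧
    X (0, j) ^ 3 * X (1, j) ^ 3 * X (2, j) ^ 2 * lin φ j ∈ supported ℤ {(t, i)}ᶜ := by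
  obtain ⟨a, b, c⟩ := fr (φ := φ) h fun _ => n
  have p : ((cs φ j).map (X (0, j) + ·)).prod ∈ supported ℤ {(t, i)}ᶜ := list_prod_mem fun u e => by
    obtain ⟨u, e', rfl⟩ := List.mem_map.1 e
    exact add_mem (c 0) (a u e')
  refine ⟨?_, mul_mem (mul_mem (mul_mem (pow_mem (c 0) _) (pow_mem (c 1) _)) (pow_mem (c 2) _))
    (sub_mem (list_sum_mem a) (by split_ifs; exacts [b _, zero_mem _]))⟩
  unfold AA
  split_ifs
  · exact mul_mem (mul_mem (mul_mem (mul_mem p (sub_mem (c 0) (c 1))) (add_mem (c 1) (b _))) (pow_mem (c 1) _))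
      (pow_mem (c 2) _)
  · exact mul_mem (mul_mem (mul_mem (pow_mem (c 0) _) p) (pow_mem (c 1) _)) (pow_mem (c 2) _)

lemma loc {d : Id →₀ ℕ} {i : Ix} (m : i ∈ II φ) (d0 : d (0, i) = 3) (d1 : d (1, i) = 3) {T : P}
    (t0 : T ∈ supported ℤ {(0, i)}ᶜ) (t1 : T ∈ supported ℤ {(1, i)}ᶜ) : coeff d (AA φ i * T) =
      coeff d (X (0, i) ^ 3 * X (1, i) ^ 3 * X (2, i) ^ 2 * lin φ i * T) := by
  have a : ∀ t < 2, ∀ x, (X (2, x) : P) ∈ supported ℤ {(t, i)}ᶜ := fun t h x => X_mem_supported.2 (by simp; omega)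
  have b : ∀ t < 2, ∀ u ∈ cs φ i, u ∈ supported ℤ {(t, i)}ᶜ := fun t h u e => by
    obtain ⟨x, -, rfl⟩ := List.mem_map.1 e
    exact a t h x
  have c0 : (X (1, i) : P) ∈ supported ℤ {(0, i)}ᶜ := X_mem_supported.2 (by simp)
  have c1 : (X (0, i) : P) ∈ supported ℤ {(1, i)}ᶜ := X_mem_supported.2 (by simp)
  obtain ⟨-, -, l, l'⟩ := ps_ok m
  have q := mul_mem (mul_mem (pow_mem c0 3) (pow_mem (a 0 (by simp) i) 2)) t0
  unfold AA lin
  split_ifs with g
  · have x := one (d := d) (w := (1, i)) [X (2, ng i), -X (0, i)] (by simp [a, c1]) 2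
      (-((cs φ i).map (X (0, i) + ·)).prod * X (2, i) ^ 2 * T) (mul_mem (mul_mem (neg_mem (list_prod_mem fun u e => by
        obtain ⟨u, e', rfl⟩ := List.mem_map.1 e
        exact add_mem c1 (b 1 (by simp) u e'))) (pow_mem (a 1 (by simp) i) 2)) t1) (by simp [d1])
    have y := one (d := d) (w := (0, i)) (-X (2, ng i) :: cs φ i) (by simpa [a] using b 0 (by simp))
      0 _ q (by simp [d0, cs, (l' g).1])
    rw [d1] at x
    rw [d0] at y
    simp only [List.map_cons, List.prod_cons, List.sum_cons, List.map_nil, List.prod_nil, List.sum_nil] at x y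
    refine (congrArg _ (by ring)).trans (x.trans ((congrArg _ (by ring)).trans (y.trans (congrArg _ (by ring)))))
  · have y := one (d := d) (w := (0, i)) (cs φ i) (b 0 (by simp)) (4 - (cs φ i).length) _ q (by
      simp [d0, cs]; omega)
    rw [d0] at y
    exact (congrArg _ (by ring)).trans (y.trans (congrArg _ (by ring)))

lemma grp {d : Id →₀ ℕ} (h : ∀ x, d (2, x) ≤ 1) (j : ℕ × ℕ) (T : P) :
    coeff d ((∏ k ∈ range 3, lin φ (j, k)) * T) = coeff d ((∏ k ∈ range 3, sm (opt φ (j, k))) * T) := by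
  have z : ∀ x (T : P), coeff d (X (2, x) ^ 2 * T) = 0 := fun x T => by
    rw [X_pow_eq_monomial, coeff_monomial_mul', if_neg fun e => ?_]
    have := e (2, x)
    have := h x
    simp at *; omega
  have s : ∀ i, ¬ gad φ i → lin φ i = sm (opt φ i) := fun i e => by simp [lin, opt, e, sm, cs, sg, X, Function.comp_def]
  by_cases e : j.2 < 3 * φ.length
  · simp only [prod_range_succ, prod_range_zero, s (j, 2) (by simp [gad])]
    generalize sm (opt φ (j, 2)) = U
    have mm : ∀ u v, (monomial (sg u + sg v) 1 : P) = X u * X v := fun u v => by simp [sg, X, monomial_mul]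
    simp only [lin, cs, ps, opt, gad, ng, sm, e, mm, List.map_cons, List.sum_cons, List.map_nil, List.sum_nil,
      Nat.ofNat_pos, Nat.one_lt_ofNat, and_self, if_true, if_false, one_ne_zero, monomial_zero', C_1]
    rw [← add_zero (coeff d (_ * (_ * _ + _) * _ * _ * _)), ← show coeff d (X (2, j, 0) ^ 2 * (U * T)) +
      coeff d (X (2, tt φ j) ^ 2 * (U * T)) - coeff d (X (2, (j.1, j.2 + 1), 0) ^ 2 * (U * T)) -
      coeff d (X (2, j, 2) ^ 2 * (U * T)) = 0 by simp [z], ← coeff_add, ← coeff_sub, ← coeff_sub, ← coeff_add]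
    exact congrArg _ (by ring)
  · rw [prod_congr rfl fun k _ => s (j, k) (by simp [gad, e])]

lemma sx (u v : Id) : sm [sg u, sg v] = X u + X v := by simp [sm, sg, X]

lemma e1 : ∏ v ∈ (ids φ).toFinset, ((nb φ v).map (xi v - xi ·)).prod = PH * ((∏ v ∈ (ids φ).toFinset,
    ((hs (pm φ v)).map (xi v - X ·)).prod) * ∏ i ∈ II φ, ∏ t ∈ range 3, ((co φ (t, i)).map (xi (t, i) - xi ·)).prod) := by
  have : ∀ u m, (hs m).map (u - xi ·) = (hs m).map (u - X ·) := fun u m => by simp [hs, xi]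
  simp only [nb, List.map_append, List.prod_append, this]
  rw [prod_mul_distrib, sp fun v => ((co φ v).map (xi v - xi ·)).prod, PH, prod_product, mul_comm (∏ _ ∈ II φ, _),
    mul_assoc, mul_comm (∏ _ ∈ II φ, _)]
  refine congrArg₂ _ (prod_congr rfl fun k _ => ?_) (by simp only [prod_range_succ, prod_range_zero, one_mul])
  simp [co, xi, sx, prod_range_succ, List.range_succ, mul_assoc]

lemma main : coeff (∑ v ∈ (ids φ).toFinset, 3 • sg v)
    (∏ v ∈ (ids φ).toFinset, ((nb φ v).map (xi v - xi ·)).prod) ≠ 0 ↔ Sat3 φ := by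
  classical
  have dv : ∀ v ∈ ids φ, (∑ v ∈ (ids φ).toFinset, 3 • sg v) v = 3 := fun v h => by
    simp [Finsupp.finsetSum_apply, sg, Finsupp.single_apply, h]
  have dz : ∑ v ∈ (ids φ).toFinset, 3 • sg v = ∑ i ∈ II φ, (3 • sg (0, i) + 3 • sg (1, i) + 2 • sg (2, i)) +
      (aa + ∑ i ∈ II φ, sg (2, i)) := by
    refine (sp (M := Multiplicative _) fun v => 3 • sg v).trans ?_
    show ∑ i ∈ II φ, (3 • sg (0, i) + 3 • sg (1, i) + 3 • sg (2, i)) + aa = _
    rw [add_comm aa, ← add_assoc, ← sum_add_distrib]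
    exact congrArg (· + aa) (sum_congr rfl fun i _ => by abel)
  have hw : IsWeightedHomogeneous (fun v : Id => if 3 ≤ v.1 then 1 else 0) PH
      (Finsupp.weight (fun v : Id => if 3 ≤ v.1 then 1 else 0) (∑ v ∈ (ids φ).toFinset, 3 • sg v)) := by
    rw [show Finsupp.weight _ _ = ∑ _ ∈ range 6 ×ˢ range 6, 1 by
      rw [dz]; simp [aa, sg, Finsupp.weight_single, map_sum]]
    refine IsWeightedHomogeneous.prod _ _ _ fun j _ => ?_
    rw [sx]
    exact (isWeightedHomogeneous_X ℤ (fun v : Id => if 3 ≤ v.1 then 1 else 0) (3, (0, 0), j.1)).add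
        (isWeightedHomogeneous_X ℤ (fun v : Id => if 3 ≤ v.1 then 1 else 0) (4, (0, 0), j.2))
  generalize ∑ v ∈ (ids φ).toFinset, 3 • sg v = d at *
  have e2 := cong (fun T => coeff d (PH * T)) (ids φ).toFinset (fun v => ((hs (pm φ v)).map (xi v - X ·)).prod)
    (fun v => xi v ^ pm φ v) (fun _ => ⊤) (fun v _ T _ => by
      simpa [hs] using pad hw (xi v) (hs (pm φ v)) (by simp [hs]) T) (by simp)
    (∏ i ∈ II φ, ∏ t ∈ range 3, ((co φ (t, i)).map (xi (t, i) - xi ·)).prod) (by simp)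
  have e3 : PH * ((∏ v ∈ (ids φ).toFinset, xi v ^ pm φ v) *
      ∏ i ∈ II φ, ∏ t ∈ range 3, ((co φ (t, i)).map (xi (t, i) - xi ·)).prod) = (∏ i ∈ II φ, AA φ i) * PH := by
    rw [mul_comm, sp, prod_eq_one (s := range 6) (by simp [pm]), mul_one, ← prod_mul_distrib]
    refine congrArg (· * PH) (prod_congr rfl fun i m => ?_)
    have := (ps_ok m).2.2.2
    by_cases g : gad φ i <;> simp [AA, prod_range_succ, pm, co, xi, g, cs, Function.comp_def, this] <;> ring
  have e4 := cong (coeff d) (II φ) (AA φ) (fun i => X (0, i) ^ 3 * X (1, i) ^ 3 * X (2, i) ^ 2 * lin φ i)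
    (fun i => (supported ℤ {(0, i)}ᶜ ⊓ supported ℤ {(1, i)}ᶜ).toSubmonoid)
    (fun i m T t => loc m (dv _ (by simp [mem_ids, m])) (dv _ (by simp [mem_ids, m])) t.1 t.2) (fun i _ j _ n => by
      have k := fun t h => fr2 (φ := φ) (t := t) h n
      exact ⟨⟨(k 0 (by simp)).1, (k 1 (by simp)).1⟩, (k 0 (by simp)).2, (k 1 (by simp)).2⟩) PH fun i _ => by
      constructor <;> refine prod_mem fun j _ => ?_ <;> rw [sx] <;>
        exact add_mem (X_mem_supported.2 (by simp)) (X_mem_supported.2 (by simp))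
  have b1 : ∀ x, (aa + ∑ i ∈ II φ, sg (2, i)) (2, x) ≤ 1 := fun x => by
    simp [aa, Finsupp.finsetSum_apply, sg, Finsupp.single_apply]; split_ifs <;> simp
  have e5 := cong (coeff (aa + ∑ i ∈ II φ, sg (2, i))) (JJ φ) _ _ (fun _ => ⊤) (fun j _ T _ => grp (φ := φ) b1 j T)
    (by simp) PH (by simp)
  have e6 : ∏ i ∈ II φ, (X (0, i) ^ 3 * X (1, i) ^ 3 * X (2, i) ^ 2 : P) =
      monomial (∑ i ∈ II φ, (3 • sg (0, i) + 3 • sg (1, i) + 2 • sg (2, i))) 1 := by
    simp [monomial_sum_one, sg, X_pow_eq_monomial, monomial_mul]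
  obtain ⟨q1, q2⟩ := pos (II φ) (fun i => sm (opt φ i)) fun i _ => (sm_ok _).1
  obtain ⟨r1, r2⟩ := pos (range 6 ×ˢ range 6) (fun j => sm [sg (3, (0, 0), j.1), sg (4, (0, 0), j.2)])
    fun i _ => (sm_ok _).1
  rw [e1, e2, e3, e4, prod_mul_distrib, e6, dz, mul_assoc, coeff_monomial_mul, one_mul, II, prod_product, ← II, e5,
    ← prod_product (f := fun i => sm (opt φ i)), ← II, PH, (q1.mul r1).2]
  simp only [q2, r2, (sm_ok _).2]
  constructor
  · rintro ⟨_, y, e, ⟨l, rfl, h⟩, -⟩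
    exact bw h fun x => le_trans (by rw [← e]; simp) (b1 x)
  · intro h
    obtain ⟨l, a, b⟩ := fw h
    refine ⟨_, _, add_comm _ _, ⟨l, a, b⟩, fun j => if (j.2 + 6 - j.1) % 6 < 3 then sg (3, (0, 0), j.1) else
      sg (4, (0, 0), j.2), ?_, fun j _ => by dsimp only; split_ifs <;> simp⟩
    simp only [aa, sum_product, sum_range_succ, sum_range_zero]
    norm_num [-Finsupp.smul_single]; abel

/-- It is NP-hard to decide whether the Alon-Tarsi number is at most 4. -/
theorem result : NPHard (Lang fun M : List (List Bool) => IsGraph M ∧ ATle (graphOf M) 4) := by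
  classical
  refine (hard_sat3.red red_pt fun φ => ?_).npHard
  obtain ⟨h0, f, h1, h2, h3, -⟩ := graph_kit (ids φ) (fun u v => v ∈ nb φ u ∨ u ∈ nb φ v) (fun p q h => h.symm)
    (fun p h => by simpa using nb_lt (h.elim id id)) nd_ids (M := red φ) rfl
  have hf : ∀ a, f a ∈ ids φ := fun a => (h2 _).1 ⟨a, rfl⟩
  have t0 : ∀ {M : Type} [CommMonoid M] (g : Id → M), ∏ a, g (f a) = ∏ v ∈ (ids φ).toFinset, g v := fun g =>
    prod_nbij f (by simp [hf]) h3.injOn (fun v h => by simpa using (h2 v).2 (by simpa using h)) fun _ _ => rfl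
  obtain ⟨E, hE⟩ : ∃ E : Finset (_ × _), ∀ p, p ∈ E ↔ f p.2 ∈ nb φ (f p.1) := ⟨univ.filter _, fun p => mem_filter_univ p⟩
  have t1 : ∀ {M : Type} [CommMonoid M] (g : Id → Id → M), ∏ p ∈ E, g (f p.1) (f p.2) =
      ∏ v ∈ (ids φ).toFinset, ((nb φ v).map (g v)).prod := fun g => by
    rw [← t0, ← prod_fiberwise E Prod.fst]
    refine prod_congr rfl fun a _ => ?_
    rw [← List.prod_toFinset _ (nb_ok (hf a)).2]
    refine prod_nbij (fun p => f p.2) (fun p e => ?_) (fun p e q e' r => ?_) (fun v h => ?_) fun p e => ?_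
    · simp only [mem_filter, hE] at e; simpa [e.2] using e.1
    · simp only [coe_filter, Set.mem_ofPred_eq] at e e'; exact Prod.ext (e.2.trans e'.2.symm) (h3 r)
    · obtain ⟨b, rfl⟩ := (h2 v).2 ((nb_ok (hf a)).1 v (by simpa using h))
      exact ⟨(a, b), by simpa [hE] using h, rfl⟩
    · rw [(mem_filter.1 e).2]
  have hc : #E = 3 * Fintype.card (Fin (red φ).length) := by
    refine Nat.pow_right_injective (a := 2) le_rfl ?_
    have a := t1 fun _ _ => 2
    have b := t0 fun _ => 2 ^ 3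
    simp only [prod_const, card_univ, List.map_const', List.prod_replicate, ← pow_mul] at a b
    dsimp only
    rw [a, b, pow_mul, ← prod_const, sp, sp]
    refine congrArg₂ _ (prod_congr rfl fun i m => ?_) (by simp [nb, co, pm, hs])
    obtain ⟨-, -, l, l'⟩ := ps_ok m
    simp only [← pow_add]
    congr 1
    by_cases g : gad φ i <;> simp [nb, pm, co, hs, g, l'] <;> omega
  have xs : ∀ v, xi v = C (if v.1 = 2 ∨ v.1 = 4 then -1 else 1) * X v := fun v => by unfold xi; split_ifs <;> simp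
  rw [and_iff_right h0, key (G := graphOf (red φ)) (E := E) (ξ := fun a => xi (f a))
    (Λ := coeffAddMonoidHom (∑ v ∈ (ids φ).toFinset, 3 • sg v))
    (c := ∏ a, (if (f a).1 = 2 ∨ (f a).1 = 4 then -1 else 1) ^ 3) ⟨fun p e => (h1 _ _).2 (Or.inl ((hE p).1 e)),
      fun u v e => ?_⟩ hc (prod_ne_zero_iff.2 fun a _ => by split_ifs <;> simp) fun e => ?_,
    t1 fun u v => xi u - xi v]
  · exact main.symm
  · simp only [hE]
    exact ⟨fun a b => (nb_lt a).not_gt (nb_lt b), ((h1 _ _).1 e).resolve_right⟩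
  · have : ∑ a, 3 • sg (f a) = ∑ v ∈ (ids φ).toFinset, 3 • sg v := t0 (M := Multiplicative _) fun v => 3 • sg v
    simp only [xs, mul_pow, prod_mul_distrib, ← map_pow, ← map_prod, X_pow_eq_monomial, ← monomial_sum_one]
    simp only [C_mul_monomial, mul_one, coeffAddMonoidHom_apply, coeff_monomial, ← this]
    by_cases q : ∀ a, e a = 3
    · simp [q, sg]
    · rw [if_neg q, if_neg fun r => q fun a => ?_]
      simpa [Finsupp.finsetSum_apply, sg, Finsupp.single_apply, h3.eq_iff] using congrArg (· (f a)) r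

end Pool.Agent.Results.MP_f2fc00_lc.NPHard
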